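import Pool.Agent.Q171.AS.Det

/-!
The congruence subgroup property for the automorphism group of the free group of rank two.
-/

namespace Pool.Agent.Q171.AS

open FreeGroup (of lift)
open Pool.Agent.Q24.PG (Wr)
open Pool.Agent.Q24.CG

/-- killing the fourth puncture -/
def kE : EE →* LL := lift ![of 0, (of 0)⁻¹ * (of 1)⁻¹, of 1]

@[simp] theorem kE_0 : kE e0 = of 0 := by simp [kE]
@[simp] theorem kE_1 : kE e1 = (of 0)⁻¹ * (of 1)⁻¹ := by simp [kE]
@[simp] theorem kE_2 : kE e2 = of 1 := by simp [kE]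

theorem kE_ΦE (l : LL) (x : EE) : kE (ΦE l x) = kE x := by
  let P : Subgroup LL :=
    { carrier := {l | ∀ x, kE (ΦE l x) = kE x}
      one_mem' := fun x => by simp
      mul_mem' := fun {l m} hl hm x => by rw [map_mul, MulAut.mul_apply, hl, hm]
      inv_mem' := fun {l} hl x => by
        rw [← hl, map_inv, MulAut.apply_inv_self] }
  have h0 : (of 0 : LL) ∈ P := by
    intro x
    have : kE.comp (ΦE (of 0)).toMonoidHom = kE := by
      rw [ΦE_0]
      apply ext3
      · change kE (sE e0) = kE e0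
        simp
      · change kE (sE e1) = kE e1
        simp
      · change kE (sE e2) = kE e2
        simp
    exact DFunLike.congr_fun this x
  have h1 : (of 1 : LL) ∈ P := by
    intro x
    have : kE.comp (ΦE (of 1)).toMonoidHom = kE := by
      rw [ΦE_1]
      apply ext3
      · change kE (tE e0) = kE e0
        simp
      · change kE (tE e1) = kE e1
        simp
      · change kE (tE e2) = kE e2
        simp [mul_assoc]
    exact DFunLike.congr_fun this x
  exact ind h0 h1 l x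

theorem ΦE_e1 (l : LL) : ΦE l e1 = e1 := by
  let P : Subgroup LL :=
    { carrier := {l | ΦE l e1 = e1}
      one_mem' := by simp
      mul_mem' := fun {l m} hl hm => by
        change ΦE (l * m) e1 = e1
        rw [map_mul, MulAut.mul_apply, hm, hl]
      inv_mem' := fun {l} hl => by
        change ΦE l⁻¹ e1 = e1
        have hl' : ΦE l e1 = e1 := hl
        nth_rewrite 1 [← hl']
        rw [map_inv, MulAut.inv_apply_self] }
  have h0 : (of 0 : LL) ∈ P := by
    change ΦE (of 0) e1 = e1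
    simp
  have h1 : (of 1 : LL) ∈ P := by
    change ΦE (of 1) e1 = e1
    simp
  exact ind h0 h1 l

theorem ΦE_z (l : LL) : ∃ g, ΦE l zE = g * zE * g⁻¹ ∧ kE g = l⁻¹ := by
  let P : Subgroup LL :=
    { carrier := {l | ∃ g, ΦE l zE = g * zE * g⁻¹ ∧ kE g = l⁻¹}
      one_mem' := ⟨1, by simp, by simp⟩
      mul_mem' := by
        rintro l m ⟨g, hg, hq⟩ ⟨g', hg', hq'⟩
        refine ⟨ΦE l g' * g, ?_, ?_⟩
        · rw [map_mul, MulAut.mul_apply, hg', map_mul, map_mul, hg, map_inv]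
          group
        · rw [map_mul, kE_ΦE, hq, hq', mul_inv_rev]
      inv_mem' := by
        rintro l ⟨g, hg, hq⟩
        refine ⟨ΦE l⁻¹ g⁻¹, ?_, ?_⟩
        · have h1 := congrArg (ΦE l⁻¹) hg
          have h2 : ΦE l⁻¹ (ΦE l zE) = zE := by
            rw [map_inv, MulAut.inv_apply_self]
          rw [h2] at h1
          generalize ΦE l⁻¹ = A at h1 ⊢
          rw [map_mul, map_mul, map_inv] at h1
          rw [map_inv]
          generalize A g = g' at h1 ⊢
          generalize A zE = z' at h1 ⊢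
          rw [h1]
          group
        · rw [kE_ΦE, map_inv, hq] }
  have h0 : (of 0 : LL) ∈ P := by
    refine ⟨e1 * e2, ?_, by simp⟩
    rw [ΦE_0, zE]
    simp [mul_assoc]
  have h1 : (of 1 : LL) ∈ P := by
    refine ⟨e0 * e1, ?_, by simp⟩
    rw [ΦE_1, zE]
    simp [mul_assoc]
  exact ind h0 h1 l

/-- the sum of the exponents modulo three -/
def χ3 : EE →* Multiplicative (ZMod 3) := lift fun _ => Multiplicative.ofAdd 1

theorem χ3_ΦE (l : LL) (x : EE) : χ3 (ΦE l x) = χ3 x := by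
  let P : Subgroup LL :=
    { carrier := {l | ∀ x, χ3 (ΦE l x) = χ3 x}
      one_mem' := fun x => by simp
      mul_mem' := fun {l m} hl hm x => by rw [map_mul, MulAut.mul_apply, hl, hm]
      inv_mem' := fun {l} hl x => by
        rw [← hl, map_inv, MulAut.apply_inv_self] }
  have h0 : (of 0 : LL) ∈ P := by
    intro x
    have : χ3.comp (ΦE (of 0)).toMonoidHom = χ3 := by
      rw [ΦE_0]
      apply ext3
      · change χ3 (sE e0) = χ3 e0
        rw [sE_0, map_mul, map_mul, map_inv, mul_comm (χ3 (e1 * e2)), mul_inv_cancel_right]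
      · change χ3 (sE e1) = χ3 e1
        simp
      · change χ3 (sE e2) = χ3 e2
        simp
    exact DFunLike.congr_fun this x
  have h1 : (of 1 : LL) ∈ P := by
    intro x
    have : χ3.comp (ΦE (of 1)).toMonoidHom = χ3 := by
      rw [ΦE_1]
      apply ext3
      · change χ3 (tE e0) = χ3 e0
        simp
      · change χ3 (tE e1) = χ3 e1
        simp
      · change χ3 (tE e2) = χ3 e2
        rw [tE_2, map_mul, map_mul, map_inv, mul_comm (χ3 (e0 * e1)), mul_inv_cancel_right]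
    exact DFunLike.congr_fun this x
  exact ind h0 h1 l x

theorem c2_vals (v : V) : χ3 ((ρ (X⁻¹ * Y * X * Y⁻¹)).l v) = if v = V.o then 1 else
    Multiplicative.ofAdd 2 := by
  have h : ∀ i, χ3 (of i) = Multiplicative.ofAdd 1 := fun i => by simp [χ3]
  have e : χ3 ((ρ (X⁻¹ * Y * X * Y⁻¹)).l v) = ((Tw.map χ3).comp ρ (X⁻¹ * Y * X * Y⁻¹)).l v := rfl
  cases v <;> simp [kx, ky, zE, h] <;> decide

section

variable {α : MulAut FF} {r : FF} {l : LL}

/-- The action on a finite quotient. -/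
theorem key {Q : Type} [Group Q] (hα : α = MulAut.conj r⁻¹ * Φ l) (χ : EE →* Q)
    (hχ : ∀ w, Tw.map χ (ρ (α w)) = Tw.map χ (ρ w)) : ∃ h : V → Q, h V.o = 1 ∧ ∀ w,
    ⟨h, V.o⟩ * Tw.map (χ.comp (ΦE l).toMonoidHom) (ρ w) * ⟨h, V.o⟩⁻¹ =
      Tw.map χ (ρ r) * Tw.map χ (ρ w) * (Tw.map χ (ρ r))⁻¹ := by
  obtain ⟨h, h1, h2⟩ := comp_all l
  refine ⟨fun v => χ (h v), by simp [h1], fun w => ?_⟩
  have h3 : Φ l w = r * α w * r⁻¹ := by
    rw [hα]
    simp [mul_assoc]
  have h4 := congrArg (Tw.map χ) (h2 w)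
  rw [h3, map_mul, map_mul, map_inv, map_mul, map_mul, map_inv, hχ] at h4
  rw [h4, map_mul, map_mul, map_inv]
  rfl

/-- The conjugating element lies in the subgroup of index four. -/
theorem r_mem (hα : α = MulAut.conj r⁻¹ * Φ l)
    (hχ : ∀ w, Tw.map χ3 (ρ (α w)) = Tw.map χ3 (ρ w)) : (ρ r).r = V.o := by
  obtain ⟨h, h1, h2⟩ := key hα χ3 hχ
  have h3 := h2 (X⁻¹ * Y * X * Y⁻¹)
  have h4 := congrArg (fun x : Tw (Multiplicative (ZMod 3)) => x.l V.o) h3
  simp only [Tw.mul_l, Tw.inv_l, Tw.map_l, Tw.mul_r, Tw.map_r, c2w.1, V.mul_o] at h4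
  have h5 : (χ3.comp (ΦE l).toMonoidHom) ((ρ (X⁻¹ * Y * X * Y⁻¹)).l V.o) = 1 := by
    change χ3 (ΦE l _) = 1
    rw [χ3_ΦE, c2_vals, if_pos rfl]
  rw [h5, c2_vals, V.sq] at h4
  by_contra hne
  rw [if_neg hne, V.one_def] at h4
  simp only [mul_one, mul_inv_cancel] at h4
  rw [mul_comm, inv_mul_cancel_left] at h4
  exact absurd h4 (by decide)

/-- The action on a finite quotient, at the elements of the subgroup of index four. -/
theorem key2 {Q : Type} [Group Q] (hα : α = MulAut.conj r⁻¹ * Φ l) (hr : (ρ r).r = V.o)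
    (χ : EE →* Q) (hχ : ∀ w, Tw.map χ (ρ (α w)) = Tw.map χ (ρ w)) (w : FF)
    (hw : (ρ w).r = V.o) : χ (ΦE l ((ρ w).l V.o)) =
      χ ((ρ r).l V.o) * χ ((ρ w).l V.o) * (χ ((ρ r).l V.o))⁻¹ := by
  obtain ⟨h, h1, h2⟩ := key hα χ hχ
  have h4 := congrArg (fun x : Tw Q => x.l V.o) (h2 w)
  simp only [Tw.mul_l, Tw.inv_l, Tw.map_l, Tw.mul_r, Tw.map_r, hw, hr, V.o_mul, h1, one_mul,
    inv_one, mul_one] at h4
  exact h4

end

/-- the wreath recursion for a function supported at one element -/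
def dl {P : Type} [Group P] [DecidableEq P] (p : P) : Wr 3 P := ⟨fun z => if z = 1 then 1 else 0, p⟩
/-- zero function -/
def dz {P : Type} (p : P) : Wr 3 P := ⟨fun _ => 0, p⟩

theorem prod_left {F Q Q' : Type} [Group F] [Group Q] [Group Q'] {α : MulAut F}
    (h : ∀ (f : F →* Q × Q') w, f (α w) = f w) (f : F →* Q) (w : F) : f (α w) = f w :=
  congrArg Prod.fst (h ((MonoidHom.inl Q Q').comp f) w)

theorem prod_right {F Q Q' : Type} [Group F] [Group Q] [Group Q'] {α : MulAut F}
    (h : ∀ (f : F →* Q × Q') w, f (α w) = f w) (f : F →* Q') (w : F) : f (α w) = f w :=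
  congrArg Prod.snd (h ((MonoidHom.inr Q Q').comp f) w)

theorem zp {G : Type} [Group G] {J : Subgroup G} [J.Normal] {g p : G}
    (h : (g : G ⧸ J) ∈ Subgroup.zpowers (p : G ⧸ J)) : ∃ k : ℤ, p ^ (-k) * g ∈ J := by
  obtain ⟨k, hk⟩ := Subgroup.mem_zpowers_iff.1 h
  refine ⟨k, ?_⟩
  rw [← QuotientGroup.eq_one_iff, QuotientGroup.mk_mul, QuotientGroup.mk_zpow, ← hk]
  group

theorem pow_mem_of_dvd {G : Type} [Group G] (J : Subgroup G) [J.Normal] {k : ℤ}
    (hk : (J.index : ℤ) ∣ k) (g : G) : g ^ k ∈ J := by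
  obtain ⟨m, rfl⟩ := hk
  rw [zpow_mul, zpow_natCast]
  exact zpow_mem (Subgroup.pow_index_mem J g) m

/-- Asada: every subgroup of finite index of the automorphism group of the free group of rank two
contains the automorphisms which preserve all homomorphisms to some finite group. -/
theorem asadaQ (M : Subgroup (MulAut FF)) [M.FiniteIndex] :
    ∃ (Q : Type) (_ : Group Q) (_ : Finite Q), ∀ α : MulAut FF,
      (∀ (f : FF →* Q) w, f (α w) = f w) → α ∈ M := by
  classical
  have i1 : (M.comap Φ).FiniteIndex := fi_comap Φ M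
  have i2 : (M.comap η).FiniteIndex := fi_comap η M
  let J0 : Subgroup LL := (M.comap Φ).normalCore
  let R0 : Subgroup EE := (M.comap η).normalCore
  have i3 : J0.FiniteIndex := inferInstance
  have i4 : R0.FiniteIndex := inferInstance
  let N : ℕ := J0.index * R0.index
  have hN : N ≠ 0 := mul_ne_zero i3.index_ne_zero i4.index_ne_zero
  have : NeZero N := ⟨hN⟩
  let xL : LL →* Multiplicative (ZMod N) := lift ![Multiplicative.ofAdd 1, 1]
  have hx0 : xL (of 0) = Multiplicative.ofAdd 1 := by simp [xL]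
  have hx1 : xL (of 1) = 1 := by simp [xL]
  have i5 : xL.ker.FiniteIndex := inferInstance
  have i6 : (xL.comp kE).ker.FiniteIndex := inferInstance
  let J : Subgroup LL := J0 ⊓ xL.ker
  let R : Subgroup EE := R0 ⊓ (xL.comp kE).ker
  have i7 : J.FiniteIndex := inferInstance
  have i8 : R.FiniteIndex := inferInstance
  have i9 : J.Normal := inferInstance
  have i10 : R.Normal := inferInstance
  have i11 : Finite (LL ⧸ J) := inferInstance
  have i12 : Finite (EE ⧸ R) := inferInstance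
  let πL : LL →* LL ⧸ J := QuotientGroup.mk' J
  let πE : EE →* EE ⧸ R := QuotientGroup.mk' R
  refine ⟨Multiplicative (ZMod 4) × Tw (Multiplicative (ZMod 3)) × Tw (Wr 3 (LL ⧸ J)) ×
    Tw (Wr 3 (EE ⧸ R)), inferInstance, inferInstance, ?_⟩
  intro α hα
  have a1 := prod_left hα
  have a2 := prod_left (prod_right hα)
  have a3 := prod_left (prod_right (prod_right hα))
  have a4 := prod_right (prod_right (prod_right hα))
  -- the form of `α`
  obtain ⟨r', l, hr'⟩ := gen α
    (by change (ex4 0 (α X)).toAdd = 1; rw [a1]; exact e4_00)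
    (by change (ex4 0 (α Y)).toAdd = 0; rw [a1]; exact e4_01)
    (by change (ex4 1 (α X)).toAdd = 0; rw [a1]; exact e4_10)
    (by change (ex4 1 (α Y)).toAdd = 1; rw [a1]; exact e4_11)
  let r := r'⁻¹
  have hr : α = MulAut.conj r⁻¹ * Φ l := by rw [hr']; simp [r]
  have hr4 : (ρ r).r = V.o := r_mem hr (fun w => a2 ((Tw.map χ3).comp ρ) w)
  let rb : EE := (ρ r).l V.o
  -- relations in finite quotients
  have hL : ∀ (χ : EE →* Wr 3 (LL ⧸ J)) (w : FF), (ρ w).r = V.o →
      χ (ΦE l ((ρ w).l V.o)) = χ rb * χ ((ρ w).l V.o) * (χ rb)⁻¹ := fun χ w hw =>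
    key2 hr hr4 χ (fun w => a3 ((Tw.map χ).comp ρ) w) w hw
  have hE : ∀ (χ : EE →* Wr 3 (EE ⧸ R)) (w : FF), (ρ w).r = V.o →
      χ (ΦE l ((ρ w).l V.o)) = χ rb * χ ((ρ w).l V.o) * (χ rb)⁻¹ := fun χ w hw =>
    key2 hr hr4 χ (fun w => a4 ((Tw.map χ).comp ρ) w) w hw
  -- the fourth puncture
  have hz : (kE rb * l) ∈ J := by
    obtain ⟨g, hg, hq⟩ := ΦE_z l
    let χ : EE →* Wr 3 (LL ⧸ J) := lift ![dz (πL (of 0)),
      (dz (πL (of 0)))⁻¹ * (dl 1)⁻¹ * (dz (πL (of 1)))⁻¹, dz (πL (of 1))]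
    have hχz : χ zE = dl 1 := by
      rw [zE, map_inv, map_mul, map_mul]
      simp only [χ, FreeGroup.lift_apply_of, Matrix.cons_val_zero, Matrix.cons_val_one,
        Matrix.cons_val]
      group
    have hχq : ∀ x, (χ x).q = πL (kE x) := by
      intro x
      have : (Wr.pr 3 _).comp χ = πL.comp kE := by
        apply ext3
        · change (χ e0).q = πL (kE e0)
          simp [χ, dz]
        · change (χ e1).q = πL (kE e1)
          simp [χ, dz, dl]
        · change (χ e2).q = πL (kE e2)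
          simp [χ, dz]
      exact DFunLike.congr_fun this x
    have h1 := hL χ _ c2w.1
    rw [c2w.2, map_mul (ΦE l), hg] at h1
    simp only [map_mul, map_inv, hχz] at h1
    have h2 : ((χ rb)⁻¹ * χ g) * (dl 1 * dl 1) * ((χ rb)⁻¹ * χ g)⁻¹ = dl 1 * dl 1 := by
      have e : (χ g * dl 1 * (χ g)⁻¹) * (χ g * dl 1 * (χ g)⁻¹) = χ g * (dl 1 * dl 1) * (χ g)⁻¹ := by
        group
      rw [e] at h1
      have e2 : ((χ rb)⁻¹ * χ g) * (dl 1 * dl 1) * ((χ rb)⁻¹ * χ g)⁻¹ =
        (χ rb)⁻¹ * (χ g * (dl 1 * dl 1) * (χ g)⁻¹) * χ rb := by group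
      rw [e2, h1]
      group
    have h3 := wr_sq (p := 1) (by simp [dl]) (fun z hz => by simp [dl, hz]) rfl h2
    rw [Subgroup.zpowers_one_eq_bot, Subgroup.mem_bot, Wr.mul_q, Wr.inv_q, hχq, hχq, hq,
      ← map_inv, ← map_mul] at h3
    have h4 : (kE rb)⁻¹ * l⁻¹ ∈ J := (QuotientGroup.eq_one_iff _).1 h3
    have h5 := inv_mem h4
    have h6 : ((kE rb)⁻¹ * l⁻¹)⁻¹ = l * kE rb := by group
    rw [h6] at h5
    exact i9.mem_comm h5
  -- the first puncture
  have h0 : ∃ k : ℤ, of 0 ^ (-k) * kE rb ∈ J := by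
    let χ : LL →* Wr 3 (LL ⧸ J) := lift ![dl (πL (of 0)), dz (πL (of 1))]
    have hχq : ∀ x, (χ x).q = πL x := by
      intro x
      have : (Wr.pr 3 _).comp χ = πL := by
        apply ext2
        · change (χ (of 0)).q = πL (of 0)
          simp [χ, dl]
        · change (χ (of 1)).q = πL (of 1)
          simp [χ, dz]
      exact DFunLike.congr_fun this x
    have hχ0 : χ (of 0) = dl (πL (of 0)) := by simp [χ]
    have h1 := hL (χ.comp kE) _ c1w.1
    rw [c1w.2] at h1
    simp only [MonoidHom.comp_apply, kE_ΦE, map_mul, kE_0] at h1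
    have h2 := wr_sq (p := πL (of 0)) (a := χ (of 0)) (g := χ (kE rb)) (by simp [hχ0, dl])
      (fun z hz => by simp [hχ0, dl, hz]) (hχq _) h1.symm
    rw [hχq] at h2
    exact zp h2
  -- the third puncture
  have h1 : ∃ k : ℤ, of 1 ^ (-k) * kE rb ∈ J := by
    let χ : LL →* Wr 3 (LL ⧸ J) := lift ![dz (πL (of 0)), dl (πL (of 1))]
    have hχq : ∀ x, (χ x).q = πL x := by
      intro x
      have : (Wr.pr 3 _).comp χ = πL := by
        apply ext2
        · change (χ (of 0)).q = πL (of 0)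
          simp [χ, dz]
        · change (χ (of 1)).q = πL (of 1)
          simp [χ, dl]
      exact DFunLike.congr_fun this x
    have hχ0 : χ (of 1) = dl (πL (of 1)) := by simp [χ]
    have h1 := hL (χ.comp kE) _ c3w.1
    rw [c3w.2] at h1
    simp only [MonoidHom.comp_apply, kE_ΦE, map_mul, kE_2] at h1
    have h2 := wr_sq (p := πL (of 1)) (a := χ (of 1)) (g := χ (kE rb)) (by simp [hχ0, dl])
      (fun z hz => by simp [hχ0, dl, hz]) (hχq _) h1.symm
    rw [hχq] at h2
    exact zp h2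
  -- the second puncture
  have h2 : ∃ k : ℤ, e1 ^ (-k) * rb ∈ R := by
    let χ : EE →* Wr 3 (EE ⧸ R) := lift ![dz (πE e0), dl (πE e1), dz (πE e2)]
    have hχq : ∀ x, (χ x).q = πE x := by
      intro x
      have : (Wr.pr 3 _).comp χ = πE := by
        apply ext3
        · change (χ e0).q = πE e0
          simp [χ, dz]
        · change (χ e1).q = πE e1
          simp [χ, dl]
        · change (χ e2).q = πE e2
          simp [χ, dz]
      exact DFunLike.congr_fun this x
    have hχ0 : χ e1 = dl (πE e1) := by simp [χ]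
    have h1 := hE χ _ c0w.1
    rw [c0w.2, map_mul (ΦE l), ΦE_e1] at h1
    simp only [map_mul] at h1
    have h2 := wr_sq (p := πE e1) (a := χ e1) (g := χ rb) (by simp [hχ0, dl])
      (fun z hz => by simp [hχ0, dl, hz]) (hχq _) h1.symm
    rw [hχq] at h2
    exact zp h2
  obtain ⟨k0, h0⟩ := h0
  obtain ⟨k1, h1⟩ := h1
  obtain ⟨k2, h2⟩ := h2
  -- exponents
  have hx : xL (kE rb) = 1 := by
    have this : xL (of 1 ^ (-k1) * kE rb) = 1 := h1.2
    rw [map_mul, map_zpow, hx1, one_zpow, one_mul] at this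
    exact this
  have hdvd : ∀ k : ℤ, (Multiplicative.ofAdd (1 : ZMod N)) ^ k = 1 → (N : ℤ) ∣ k := by
    intro k hk
    rw [← ofAdd_zsmul, zsmul_one] at hk
    exact (ZMod.intCast_zmod_eq_zero_iff_dvd k N).1 (Multiplicative.ofAdd.injective hk)
  have hk0 : (N : ℤ) ∣ -k0 := by
    have this : xL (of 0 ^ (-k0) * kE rb) = 1 := h0.2
    rw [map_mul, map_zpow, hx0, hx, mul_one] at this
    exact hdvd _ this
  have hk2 : (N : ℤ) ∣ k2 := by
    have this : xL (kE (e1 ^ (-k2) * rb)) = 1 := h2.2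
    rw [map_mul, map_mul, map_zpow, map_zpow, hx, kE_1, map_mul, map_inv, map_inv, hx0, hx1, mul_one, inv_one, mul_one, inv_zpow', neg_neg] at this
    exact hdvd _ this
  have hJN : (J0.index : ℤ) ∣ N := ⟨R0.index, by simp [N]⟩
  have hRN : (R0.index : ℤ) ∣ N := ⟨J0.index, by simp [N, mul_comm]⟩
  have hqJ : kE rb ∈ J0 := by
    have := mul_mem (inv_mem (pow_mem_of_dvd J0 (hJN.trans hk0) (of 0))) h0.1
    simpa using this
  have hlJ : l ∈ J0 := by
    have := mul_mem (inv_mem hqJ) hz.1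
    simpa using this
  have hrR : rb ∈ R0 := by
    have := mul_mem (pow_mem_of_dvd R0 (hRN.trans hk2) e1) h2.1
    simpa using this
  have hl : Φ l ∈ M := Subgroup.normalCore_le (M.comap Φ) hlJ
  have hη : η rb ∈ M := Subgroup.normalCore_le (M.comap η) hrR
  rw [η_mem hr4] at hη
  rw [hr, map_inv]
  exact mul_mem (inv_mem hη) hl

end Pool.Agent.Q171.AS
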