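import Pool.Agent.Q171.AS.FlagOut

/-!
Finite index subgroups of free groups: the congruence topology of the automorphism group of the
subgroup induces the congruence topology on the automorphisms of the group preserving the subgroup.
-/

namespace Pool.Agent.Q171.AS

open FreeGroup (of lift)
open Pool.Agent.Q24.PG (Wr)
open Pool.Agent.Q24.CG

section wr

variable {p : ℕ} {P : Type} [Group P]

/-- the elements supported in a subgroup -/
def supW (p : ℕ) (A : Subgroup P) : Subgroup (Wr p P) where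
  carrier := {x | x.q ∈ A ∧ ∀ z, z ∉ A → x.f z = 0}
  one_mem' := ⟨one_mem _, fun z _ => rfl⟩
  mul_mem' := by
    rintro x y ⟨hx, hx'⟩ ⟨hy, hy'⟩
    refine ⟨mul_mem hx hy, fun z hz => ?_⟩
    rw [Wr.mul_f, hx' z hz, hy', add_zero]
    intro h1
    apply hz
    have := mul_mem hx h1
    rwa [mul_inv_cancel_left] at this
  inv_mem' := by
    rintro x ⟨hx, hx'⟩
    refine ⟨inv_mem hx, fun z hz => ?_⟩
    rw [Wr.inv_f, hx', neg_zero]
    intro h1
    apply hz
    have := mul_mem (inv_mem hx) h1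
    rwa [inv_mul_cancel_left] at this

variable [Fintype P]

/-- the sum of the values -/
def tot (x : Wr p P) : ZMod p := ∑ z, x.f z

theorem tot_mul (x y : Wr p P) : tot (x * y) = tot x + tot y := by
  unfold tot
  simp only [Wr.mul_f]
  rw [Finset.sum_add_distrib]
  congr 1
  exact Equiv.sum_comp (Equiv.mulLeft x.q⁻¹) y.f

theorem tot_pow (x : Wr p P) (k : ℕ) : tot (x ^ k) = k * tot x := by
  induction k with
  | zero =>
    simp [tot]
  | succ k ih =>
    rw [pow_succ, tot_mul, ih]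
    push_cast
    ring

theorem norm_mem (A : Subgroup P) {a b g : Wr p P} (ha : a ∈ supW p A) (hb : b ∈ supW p A)
    (ht : tot a ≠ 0) (h : g * a * g⁻¹ = b) : g.q ∈ A := by
  classical
  by_contra hne
  have h1 : g * a = b * g := mul_inv_eq_iff_eq_mul.1 h
  have hq : b.q = g.q * a.q * g.q⁻¹ := by rw [← h]; rfl
  have h2 : ∀ z, g.f z + a.f (g.q⁻¹ * z) = b.f z + g.f (b.q⁻¹ * z) := by
    intro z
    have := congrArg (fun w : Wr p P => w.f z) h1
    simp only [Wr.mul_f] at this
    exact this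
  let S : Finset P := Finset.univ.filter (fun z => g.q⁻¹ * z ∈ A)
  have hS : ∀ z, z ∈ S ↔ g.q⁻¹ * z ∈ A := fun z => by simp [S]
  have h3 := Finset.sum_congr (rfl : S = S) (fun z _ => h2 z)
  rw [Finset.sum_add_distrib, Finset.sum_add_distrib] at h3
  have h4 : ∑ z ∈ S, g.f (b.q⁻¹ * z) = ∑ z ∈ S, g.f z := by
    have e : ∀ z, g.q⁻¹ * (b.q⁻¹ * z) = a.q⁻¹ * (g.q⁻¹ * z) := by
      intro z
      rw [hq]; group
    have e' : ∀ z, g.q⁻¹ * (b.q * z) = a.q * (g.q⁻¹ * z) := by
      intro z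
      rw [hq]; group
    apply Finset.sum_bij (fun z _ => b.q⁻¹ * z)
    · intro z hz
      rw [hS] at hz ⊢
      rw [e]
      exact mul_mem (inv_mem ha.1) hz
    · intro x _ y _ hxy
      exact mul_left_cancel hxy
    · intro z hz
      rw [hS] at hz
      refine ⟨b.q * z, ?_, by group⟩
      rw [hS, e']
      exact mul_mem ha.1 hz
    · intro z _
      rfl
  have h5 : ∑ z ∈ S, a.f (g.q⁻¹ * z) = tot a := by
    have e : ∑ z ∈ S, a.f (g.q⁻¹ * z) = ∑ z, a.f (g.q⁻¹ * z) := by
      apply Finset.sum_subset (Finset.subset_univ S)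
      intro z _ hz
      rw [hS] at hz
      exact ha.2 _ hz
    rw [e]
    exact Equiv.sum_comp (Equiv.mulLeft g.q⁻¹) a.f
  have h6 : ∑ z ∈ S, b.f z = 0 := by
    apply Finset.sum_eq_zero
    intro z hz
    rw [hS] at hz
    apply hb.2
    intro h7
    apply hne
    have := mul_mem h7 (inv_mem hz)
    simpa using this
  rw [h4, h5, h6, zero_add, add_eq_left] at h3
  exact ht h3

end wr

/-- The action on homomorphisms to a finite group. -/
def actHom (F Q : Type) [Group F] [Group Q] : MulAut F →* Equiv.Perm (F →* Q) where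
  toFun α :=
    { toFun := fun f => f.comp (α⁻¹ : MulAut F).toMonoidHom
      invFun := fun f => f.comp α.toMonoidHom
      left_inv := fun f => by
        ext x
        change f (α⁻¹ (α x)) = f x
        rw [MulAut.inv_apply_self]
      right_inv := fun f => by
        ext x
        change f (α (α⁻¹ x)) = f x
        rw [MulAut.apply_inv_self] }
  map_one' := by
    ext f x
    rfl
  map_mul' α β := by
    ext f x
    change f ((α * β)⁻¹ x) = f (β⁻¹ (α⁻¹ x))
    rw [mul_inv_rev]
    rfl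

theorem actHom_ker {F Q : Type} [Group F] [Group Q] {α : MulAut F} (h : α ∈ (actHom F Q).ker)
    (f : F →* Q) (x : F) : f (α x) = f x := by
  have h1 : actHom F Q α⁻¹ = 1 := by
    rw [map_inv, MonoidHom.mem_ker.1 h, inv_one]
  have h2 := DFunLike.congr_fun (congrArg (fun e : Equiv.Perm (F →* Q) => e f) h1) x
  change f ((α⁻¹)⁻¹ x) = f x at h2
  rwa [inv_inv] at h2

variable {m : ℕ}

/-- The group of the automorphisms in `flag m` which map the subgroup `U` onto itself. -/
def pres (m : ℕ) (U : Subgroup (FreeGroup (Fin m))) : Subgroup (MulAut (FreeGroup (Fin m))) where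
  carrier := {α | α ∈ flag m ∧ ∀ w, α w ∈ U ↔ w ∈ U}
  one_mem' := ⟨one_mem _, fun w => by simp⟩
  mul_mem' := by
    rintro α β ⟨hα, hα'⟩ ⟨hβ, hβ'⟩
    exact ⟨mul_mem hα hβ, fun w => by rw [MulAut.mul_apply, hα', hβ']⟩
  inv_mem' := by
    rintro α ⟨hα, hα'⟩
    exact ⟨inv_mem hα, fun w => by rw [← hα', MulAut.apply_inv_self]⟩

/-- The restriction to the subgroup `U`. -/
def rs {U : Subgroup (FreeGroup (Fin m))} (α : pres m U) (x : U) : U :=
  ⟨(α : MulAut (FreeGroup (Fin m))) x, (α.2.2 x).2 x.2⟩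

theorem pres_fi (U : Subgroup (FreeGroup (Fin m))) [U.FiniteIndex] :
    ((pres m U).subgroupOf (flag m)).FiniteIndex := by
  have hQ : Finite (FreeGroup (Fin m) ⧸ U) := inferInstance
  have h1 : ((actHom (FreeGroup (Fin m)) (Equiv.Perm (FreeGroup (Fin m) ⧸ U))).ker.subgroupOf
      (flag m)).FiniteIndex := fi_comap _ _
  apply Subgroup.finiteIndex_of_le (H := (actHom (FreeGroup (Fin m))
    (Equiv.Perm (FreeGroup (Fin m) ⧸ U))).ker.subgroupOf (flag m))
  intro α hα
  rw [Subgroup.mem_subgroupOf] at hα ⊢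
  refine ⟨α.2, fun w => ?_⟩
  have h2 := actHom_ker hα (MulAction.toPermHom (FreeGroup (Fin m)) (FreeGroup (Fin m) ⧸ U)) w
  have h3 := congrArg (fun e : Equiv.Perm (FreeGroup (Fin m) ⧸ U) => e (1 : FreeGroup (Fin m))) h2
  change (((α : MulAut (FreeGroup (Fin m))) w * 1 : FreeGroup (Fin m)) : FreeGroup (Fin m) ⧸ U) =
    ((w * 1 : FreeGroup (Fin m)) : FreeGroup (Fin m) ⧸ U) at h3
  rw [mul_one, mul_one, QuotientGroup.eq] at h3
  constructor
  · intro h4
    have := mul_mem h4 h3
    rwa [mul_inv_cancel_left] at this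
  · intro h4
    have := mul_mem h4 (inv_mem h3)
    simpa using this

theorem conj_aux {G : Type} [Group G] (b g x : G) :
    b⁻¹ * (g * x * g⁻¹) * b = (b⁻¹ * g) * x * (b⁻¹ * g)⁻¹ := by
  group

theorem pow_aux {G : Type} [Group G] {s y w : G} {D : ℕ} (h1 : y ^ D = s * w ^ D * s⁻¹) :
    (s⁻¹ * y * s) * w ^ D * (s⁻¹ * y * s)⁻¹ = w ^ D := by
  have h3 : s⁻¹ * y ^ D * s = w ^ D := by rw [h1]; group
  have h4 : (s⁻¹ * y * s) ^ D = w ^ D := by
    rw [← h3]
    have : s⁻¹ * y * s = s⁻¹ * y * (s⁻¹)⁻¹ := by rw [inv_inv]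
    rw [this, conj_pow, inv_inv]
  rw [← h4, ← pow_succ', pow_succ, mul_inv_cancel_right]

/-- The main theorem on subgroups of finite index. -/
theorem cover (hm : 2 ≤ m) (U : Subgroup (FreeGroup (Fin m))) [U.FiniteIndex]
    (M : Subgroup (pres m U)) [M.FiniteIndex]
    (hM : ∀ (u : FreeGroup (Fin m)) (h : MulAut.conj u ∈ pres m U), u ∈ U →
      (⟨MulAut.conj u, h⟩ : pres m U) ∈ M) :
    ∃ K : Subgroup U, K.Characteristic ∧ K.FiniteIndex ∧
      ∀ α : pres m U, (∃ u : U, ∀ x : U, rs α x * (u * x * u⁻¹)⁻¹ ∈ K) → α ∈ M := by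
  classical
  -- the subgroup of the stabilizer of the flag
  let j : pres m U →* flag m := Subgroup.inclusion (fun α hα => hα.1)
  have hj : Function.Injective j := Subgroup.inclusion_injective _
  let M' : Subgroup (flag m) := M.map j
  have hM' : M'.FiniteIndex := by
    refine ⟨?_⟩
    rw [Subgroup.index_map_of_injective _ hj]
    apply mul_ne_zero
    · exact (inferInstance : M.FiniteIndex).index_ne_zero
    · have : j.range = (pres m U).subgroupOf (flag m) := by
        ext α
        rw [Subgroup.mem_subgroupOf]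
        constructor
        · rintro ⟨β, rfl⟩
          exact β.2
        · intro h
          exact ⟨⟨α, h⟩, rfl⟩
      rw [this]
      exact (pres_fi U).index_ne_zero
  obtain ⟨K0, hK0, hK0f, hK0M⟩ := flag_aut hm M'
  have hK0n : K0.Normal := inferInstance
  -- the exponents
  let D := U.normalCore.index
  have hD0 : D ≠ 0 := (inferInstance : U.normalCore.FiniteIndex).index_ne_zero
  have hDU : ∀ w : FreeGroup (Fin m), w ^ D ∈ U := fun w =>
    Subgroup.normalCore_le U (Subgroup.pow_index_mem U.normalCore w)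
  let N := K0.index
  have hN0 : N ≠ 0 := hK0f.index_ne_zero
  have : NeZero (N * D) := ⟨mul_ne_zero hN0 hD0⟩
  obtain ⟨p, hpD, hp⟩ := Nat.exists_infinite_primes (D + 1)
  have hpf : Fact p.Prime := ⟨hp⟩
  have hpz : NeZero p := ⟨hp.ne_zero⟩
  have hDp : (D : ZMod p) ≠ 0 := by
    intro h
    rw [ZMod.natCast_eq_zero_iff] at h
    exact absurd (Nat.le_of_dvd (Nat.pos_of_ne_zero hD0) h) (by omega)
  let xe : Fin m → (FreeGroup (Fin m) →* Multiplicative (ZMod (N * D))) := fun i =>
    lift fun l => if l = i then Multiplicative.ofAdd 1 else 1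
  have hxe : ∀ i, xe i (of i) = Multiplicative.ofAdd 1 := fun i => by simp [xe]
  let R : Subgroup (FreeGroup (Fin m)) := (K0 ⊓ U.normalCore) ⊓ ⨅ i, (xe i).ker
  have hRf : R.FiniteIndex := by
    have h1 : (⨅ i, (xe i).ker).FiniteIndex := Subgroup.finiteIndex_iInf (fun i => inferInstance)
    infer_instance
  have hRn : R.Normal := by
    have h1 : (⨅ i, (xe i).ker).Normal := Subgroup.normal_iInf_normal (fun i => inferInstance)
    infer_instance
  let P := FreeGroup (Fin m) ⧸ R
  let π : FreeGroup (Fin m) →* P := QuotientGroup.mk' R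
  have hPf : Finite P := inferInstance
  have := Fintype.ofFinite P
  refine ⟨KK U (Wr p P), KK_char, KK_fin, ?_⟩
  rintro α ⟨g, hg⟩
  let a : MulAut (FreeGroup (Fin m)) := α
  have hrel : ∀ (χ : FreeGroup (Fin m) →* Wr p P) (x : FreeGroup (Fin m)), x ∈ U →
      χ (a x) = χ g * χ x * (χ g)⁻¹ := by
    intro χ x hx
    have h1 := mem_KK.1 (hg ⟨x, hx⟩) (χ.comp U.subtype)
    rw [map_mul, map_inv, mul_inv_eq_one, map_mul, map_mul, map_inv] at h1
    exact h1
  let χ : Fin m → (FreeGroup (Fin m) →* Wr p P) := fun i =>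
    lift fun l => if l = i then ⟨fun z => if z = 1 then 1 else 0, π (of l)⟩ else ⟨fun _ => 0, π (of l)⟩
  have hχq : ∀ i w, (χ i w).q = π w := by
    intro i w
    have : (Wr.pr p P).comp (χ i) = π := by
      ext l
      change (χ i (of l)).q = π (of l)
      by_cases h : l = i <;> simp [χ, h]
    exact DFunLike.congr_fun this w
  have hχt : ∀ i, tot (χ i (of i)) = 1 := by
    intro i
    have h1 : ∀ z, (χ i (of i)).f z = if z = 1 then 1 else 0 := fun z => by simp [χ]
    unfold tot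
    rw [Finset.sum_eq_single 1, h1, if_pos rfl]
    · intro z _ hz
      rw [h1, if_neg hz]
    · intro h
      exact absurd (Finset.mem_univ _) h
  have hχs : ∀ i l (A : Subgroup P), π (of l) ∈ A → χ i (of l) ∈ supW p A := by
    intro i l A hA
    refine ⟨by rw [hχq]; exact hA, fun z hz => ?_⟩
    have hz1 : z ≠ 1 := fun h => hz (by rw [h]; exact one_mem _)
    by_cases h : l = i
    · simp [χ, h, hz1]
    · simp [χ, h]
  have hπe : ∀ x, x ∈ U → π (a x) = π g * π x * (π g)⁻¹ := by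
    intro x hx
    by_cases hm0 : 0 < m
    · have h1 := congrArg (fun y : Wr p P => y.q) (hrel (χ ⟨0, hm0⟩) x hx)
      simpa only [Wr.mul_q, Wr.inv_q, hχq] using h1
    · omega
  -- the conjugating element is near the free factor of rank two
  have hgb : ∃ b ∈ base m, π g = π b := by
    let z : Fin m := ⟨0, by omega⟩
    have hz : of z ∈ base m := of_mem_base (by simp [z])
    let A : Subgroup P := (base m).map π
    have hsupp : ∀ x ∈ base m, χ z x ∈ supW p A := by
      have : base m ≤ (supW p A).comap (χ z) := by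
        unfold base
        rw [Subgroup.closure_le]
        rintro _ ⟨l, hl, rfl⟩
        exact hχs z l A ⟨_, of_mem_base hl, rfl⟩
      exact fun x hx => this hx
    have h1 := hrel (χ z) (of z ^ D) (hDU _)
    have h2 := norm_mem A (a := χ z (of z ^ D)) (b := χ z (a (of z ^ D))) (g := χ z g)
      (hsupp _ (pow_mem hz D)) (hsupp _ ((α.2.1.1 _).2 (pow_mem hz D)))
      (by rw [map_pow, tot_pow, hχt, mul_one]; exact hDp) h1.symm
    rw [hχq] at h2
    obtain ⟨b, hb, hbπ⟩ := h2
    exact ⟨b, hb, hbπ.symm⟩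
  obtain ⟨b, hb, hgb⟩ := hgb
  have hbU : b ∈ U := by
    have h1 : (g : FreeGroup (Fin m))⁻¹ * b ∈ R := QuotientGroup.eq.1 hgb
    have h2 : (g : FreeGroup (Fin m))⁻¹ * b ∈ U := Subgroup.normalCore_le U h1.1.2
    have := mul_mem g.2 h2
    rwa [mul_inv_cancel_left] at this
  have hcb : MulAut.conj b ∈ pres m U := by
    refine ⟨conj_mem_flag hb, fun w => ?_⟩
    rw [MulAut.conj_apply]
    constructor
    · intro h
      have := mul_mem (mul_mem (inv_mem hbU) h) hbU
      have e : b⁻¹ * (b * w * b⁻¹) * b = w := by group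
      rwa [e] at this
    · intro h
      exact mul_mem (mul_mem hbU h) (inv_mem hbU)
  let c : pres m U := ⟨MulAut.conj b, hcb⟩
  have hc : c ∈ M := hM _ _ hbU
  -- the corrected automorphism
  let γ : MulAut (FreeGroup (Fin m)) := (MulAut.conj b)⁻¹ * a
  have hγ : ∀ x, γ x = b⁻¹ * a x * b := by
    intro x
    change (MulAut.conj b)⁻¹ (a x) = _
    rw [← map_inv, MulAut.conj_apply, inv_inv]
  have hγπ : ∀ x, x ∈ U → π (γ x) = π x := by
    intro x hx
    rw [hγ, map_mul, map_mul, map_inv, hπe x hx, hgb]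
    group
  have hγχ : ∀ i x, x ∈ U → χ i (γ x) = (χ i (b⁻¹ * g)) * χ i x * (χ i (b⁻¹ * g))⁻¹ := by
    intro i x hx
    rw [hγ, map_mul, map_mul, hrel (χ i) x hx, map_mul (χ i) b⁻¹, map_inv]
    exact conj_aux _ _ _
  have hgen : ∀ i : Fin m, γ (of i) * (of i)⁻¹ ∈ K0 := by
    intro i
    let A : Subgroup P := Subgroup.zpowers (π (of i))
    have hAi : χ i (of i) ∈ supW p A := hχs i i A (Subgroup.mem_zpowers _)
    have h1 := hγχ i (of i ^ D) (hDU _)
    -- the element conjugating the power of the generator to itself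
    have h2 : (χ i (b⁻¹ * g) )⁻¹ * χ i (γ (of i)) * χ i (b⁻¹ * g) ∈ ({x | x.q ∈ A} : Set (Wr p P)) := by
      apply norm_mem A (a := (χ i (of i)) ^ D) (b := (χ i (of i)) ^ D) (pow_mem hAi D)
        (pow_mem hAi D) (by rw [tot_pow, hχt, mul_one]; exact hDp)
      rw [map_pow, map_pow, map_pow] at h1
      exact pow_aux h1
    have h3 : π (γ (of i)) ∈ A := by
      have h4 : ((χ i (b⁻¹ * g))⁻¹ * χ i (γ (of i)) * χ i (b⁻¹ * g)).q ∈ A := h2
      rw [Wr.mul_q, Wr.mul_q, Wr.inv_q, hχq, hχq, map_mul, map_inv, hgb] at h4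
      simpa using h4
    obtain ⟨k, hk⟩ := Subgroup.mem_zpowers_iff.1 h3
    have h4 : π (of i ^ ((k - 1) * D)) = 1 := by
      have h5 := hγπ (of i ^ D) (hDU _)
      rw [map_pow γ, map_pow π, ← hk, map_pow π, ← zpow_natCast, ← zpow_mul, ← zpow_natCast] at h5
      rw [map_zpow, sub_mul, zpow_sub, h5, one_mul, mul_inv_cancel]
    have h5 : of i ^ ((k - 1) * D) ∈ R := (QuotientGroup.eq_one_iff _).1 h4
    have h6 : of i ^ ((k - 1) * D) ∈ (xe i).ker := (Subgroup.mem_iInf.1 h5.2) i
    rw [MonoidHom.mem_ker, map_zpow, hxe, ← ofAdd_zsmul, zsmul_one] at h6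
    have h7 : ((N * D : ℕ) : ℤ) ∣ (k - 1) * D :=
      (ZMod.intCast_zmod_eq_zero_iff_dvd _ _).1 (Multiplicative.ofAdd.injective h6)
    have h8 : (N : ℤ) ∣ k - 1 := by
      push_cast at h7
      exact (mul_dvd_mul_iff_right (by exact_mod_cast hD0)).1 h7
    have h9 : of i ^ (k - 1) ∈ K0 := pow_mem_of_dvd K0 h8 _
    have h10 : (of i ^ k)⁻¹ * γ (of i) ∈ R := by
      apply QuotientGroup.eq.1
      change π (of i ^ k) = π (γ (of i))
      rw [map_zpow, hk]
    have h11 : (of i ^ k)⁻¹ * γ (of i) ∈ K0 := h10.1.1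
    have h12 : γ (of i) * (of i)⁻¹ = of i ^ (k - 1) * (of i * ((of i ^ k)⁻¹ * γ (of i)) * (of i)⁻¹) := by
      rw [zpow_sub_one]; group
    rw [h12]
    exact mul_mem h9 (hK0n.conj_mem _ h11 _)
  have hγK : ∀ w, γ w * w⁻¹ ∈ K0 := by
    intro w
    have : (QuotientGroup.mk' K0).comp γ.toMonoidHom = QuotientGroup.mk' K0 := by
      ext i
      change QuotientGroup.mk' K0 (γ (of i)) = QuotientGroup.mk' K0 (of i)
      have h1 := (QuotientGroup.eq_one_iff _).2 (hgen i)
      rw [← QuotientGroup.mk'_apply, map_mul, map_inv, mul_inv_eq_one] at h1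
      exact h1
    have h2 : QuotientGroup.mk' K0 (γ w) = QuotientGroup.mk' K0 w := DFunLike.congr_fun this w
    rw [← QuotientGroup.eq_one_iff, ← QuotientGroup.mk'_apply, map_mul, map_inv, mul_inv_eq_one]
    exact h2
  have h3 : j (c⁻¹ * α) ∈ M' := hK0M _ hγK
  obtain ⟨δ, hδ, hδe⟩ := h3
  have h4 : δ = c⁻¹ * α := hj hδe
  rw [h4] at hδ
  have := mul_mem hc hδ
  rwa [mul_inv_cancel_left] at this

end Pool.Agent.Q171.AS
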