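import Pool.Agent.Q171.AS.Tw
import Pool.Agent.Q24.CG.Main

/-!
The action of the group of rank three by automorphisms, and detection of centralizers of squares.
-/

namespace Pool.Agent.Q171.AS

open FreeGroup (of lift)
open Pool.Agent.Q24.PG (Wr)

/-- elements of the index four subgroup act as inner automorphisms -/
def η : EE →* MulAut FF :=
  lift ![MulAut.conj (Y * X) * bA, MulAut.conj (X * Y⁻¹) * bA, MulAut.conj (Y⁻¹ * X⁻¹) * bA]

@[simp] theorem η_0 : η e0 = MulAut.conj (Y * X) * bA := by simp [η]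
@[simp] theorem η_1 : η e1 = MulAut.conj (X * Y⁻¹) * bA := by simp [η]
@[simp] theorem η_2 : η e2 = MulAut.conj (Y⁻¹ * X⁻¹) * bA := by simp [η]

/-- correction -/
def Hη : V → MulAut FF
  | V.o => 1
  | V.a => MulAut.conj X * bA
  | V.b => bA
  | V.c => MulAut.conj X⁻¹

/-- constant functions with conjugations as values -/
def cc : FF →* Tw (MulAut FF) := Tw.cst MulAut.conj (Tw.pr.comp ρ)

theorem cc_l (w : FF) (v : V) : (cc w).l v = MulAut.conj w := rfl
theorem cc_r (w : FF) : (cc w).r = (ρ w).r := rfl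

theorem bconj (g : FF) : bA * MulAut.conj g * bA = MulAut.conj (bA g) := by
  rw [← conj_conj, binv]

theorem η_q : η (e1 * e2) = MulAut.conj (X * X) := by
  rw [map_mul, η_1, η_2]
  have : MulAut.conj (X * Y⁻¹) * bA * (MulAut.conj (Y⁻¹ * X⁻¹) * bA) =
    MulAut.conj (X * Y⁻¹) * (bA * MulAut.conj (Y⁻¹ * X⁻¹) * bA) := by group
  rw [this, bconj, ← map_mul]
  congr 1
  simp [mul_assoc]

theorem η_z : η zE = MulAut.conj (X⁻¹ * Y) * bA := by
  unfold zE
  rw [map_inv, inv_eq_iff_mul_eq_one, mul_assoc e0, map_mul, η_q, η_0]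
  have : MulAut.conj (Y * X) * bA * MulAut.conj (X * X) * (MulAut.conj (X⁻¹ * Y) * bA) =
    MulAut.conj (Y * X) * (bA * (MulAut.conj (X * X) * MulAut.conj (X⁻¹ * Y)) * bA) := by group
  rw [this, ← map_mul, bconj, ← map_mul]
  have : Y * X * bA (X * X * (X⁻¹ * Y)) = 1 := by simp [mul_assoc]
  rw [this, map_one]

theorem η_comp (w : FF) : Tw.map η (ρ w) = ⟨Hη, V.o⟩ * cc w * ⟨Hη, V.o⟩⁻¹ := by
  have : (Tw.map η).comp ρ = (MulAut.conj (⟨Hη, V.o⟩ : Tw (MulAut FF))).toMonoidHom.comp cc := by
    apply ext2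
    · change Tw.map η (ρ X) = ⟨Hη, V.o⟩ * cc X * ⟨Hη, V.o⟩⁻¹
      ext1
      · funext v
        simp only [Tw.map_l, Tw.mul_l, Tw.inv_l, cc_l, cc_r, ρ_X, V.o_mul, Tw.mul_r]
        cases v
        · simp only [V.mul_o, kx, Hη]
          rw [η_q, map_mul, one_mul, ← map_inv, inv_inv]
        · simp only [V.ca, kx, Hη]
          rw [map_one, binv]
          have : MulAut.conj X * bA * MulAut.conj X * bA = MulAut.conj X * (bA * MulAut.conj X * bA) := by
            group
          rw [this, bconj, ← map_mul]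
          simp
        · simp only [V.cb, kx, Hη]
          rw [map_inv, η_q, mul_inv_rev, binv]
          have : bA * MulAut.conj X * (bA * (MulAut.conj X)⁻¹) =
            (bA * MulAut.conj X * bA) * (MulAut.conj X)⁻¹ := by group
          rw [this, bconj, bA_X, map_inv, map_mul]
          group
        · simp only [V.cc, kx, Hη]
          rw [map_one]
          simp
      · simp [cc_r]
    · change Tw.map η (ρ Y) = ⟨Hη, V.o⟩ * cc Y * ⟨Hη, V.o⟩⁻¹
      ext1
      · funext v
        simp only [Tw.map_l, Tw.mul_l, Tw.inv_l, cc_l, cc_r, ρ_Y, V.o_mul, Tw.mul_r]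
        cases v
        · simp only [V.mul_o, ky, Hη]
          rw [η_0, mul_inv_rev, binv, map_mul, one_mul, mul_assoc]
          congr 1
          rw [← map_inv, mul_conj]
          simp
        · simp only [V.aa, ky, Hη]
          rw [η_1, inv_one, mul_one, map_mul, mul_assoc, mul_assoc]
          congr 1
          rw [mul_conj]
          simp
        · simp only [V.ab, ky, Hη]
          rw [η_2, ← map_inv, inv_inv, mul_assoc, ← map_mul, mul_conj]
          simp [mul_assoc]
        · simp only [V.ac, ky, Hη]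
          rw [η_z, binv, map_mul]
      · simp [cc_r]
  exact DFunLike.congr_fun this w

theorem η_mem {w : FF} (hw : (ρ w).r = V.o) : η ((ρ w).l V.o) = MulAut.conj w := by
  have h := congrArg (fun x : Tw (MulAut FF) => x.l V.o) (η_comp w)
  simp only [Tw.map_l, Tw.mul_l, Tw.inv_l, cc_l, cc_r, Tw.mul_r, hw, V.o_mul, Hη, one_mul,
    inv_one, mul_one] at h
  exact h

section wr

variable {P : Type} [Group P] [Finite P]

theorem wr_sq {p : P} {a g : Wr 3 P} (ha1 : a.f 1 = 1) (ha0 : ∀ z, z ≠ 1 → a.f z = 0)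
    (hp : a.q = p) (h : g * (a * a) * g⁻¹ = a * a) : g.q ∈ Subgroup.zpowers p := by
  classical
  by_contra hne
  have h1 : g * (a * a) = a * a * g := mul_inv_eq_iff_eq_mul.1 h
  have := Fintype.ofFinite P
  have h2 : ∀ z, g.f z + (a.f (g.q⁻¹ * z) + a.f (p⁻¹ * (g.q⁻¹ * z))) =
      (a.f z + a.f (p⁻¹ * z)) + g.f ((p * p)⁻¹ * z) := by
    intro z
    have := congrArg (fun w : Wr 3 P => w.f z) h1
    simp only [Wr.mul_f, Wr.mul_q] at this
    rw [hp] at this
    exact this
  let S : Finset P := Finset.univ.filter (fun z => z ∈ Subgroup.zpowers p)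
  have hS : ∀ z, z ∈ S ↔ z ∈ Subgroup.zpowers p := fun z => by simp [S]
  have h3 := Finset.sum_congr (rfl : S = S) (fun z _ => h2 z)
  rw [Finset.sum_add_distrib, Finset.sum_add_distrib (f := fun z => a.f z + a.f (p⁻¹ * z)),
    Finset.sum_add_distrib (f := fun z => a.f z)] at h3
  have h4 : ∀ (F : P → ZMod 3) (u : P), u ∈ Subgroup.zpowers p → ∑ z ∈ S, F (u * z) = ∑ z ∈ S, F z := by
    intro F u hu
    apply Finset.sum_bij (fun z _ => u * z)
    · intro z hz
      rw [hS] at hz ⊢
      exact mul_mem hu hz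
    · intro x _ y _ hxy
      exact mul_left_cancel hxy
    · intro z hz
      rw [hS] at hz
      refine ⟨u⁻¹ * z, ?_, by group⟩
      rw [hS]
      exact mul_mem (inv_mem hu) hz
    · intro z _
      rfl
  have hpm := Subgroup.mem_zpowers p
  have h5 : ∑ z ∈ S, a.f z = 1 := by
    rw [Finset.sum_eq_single (1 : P) (fun z _ hz => ha0 z hz), ha1]
    intro h1
    exact absurd ((hS 1).2 (one_mem _)) h1
  have h6 : ∑ z ∈ S, (a.f (g.q⁻¹ * z) + a.f (p⁻¹ * (g.q⁻¹ * z))) = 0 := by
    apply Finset.sum_eq_zero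
    intro z hz
    rw [hS] at hz
    have h7 : g.q⁻¹ * z ∉ Subgroup.zpowers p := by
      intro h8
      apply hne
      have := mul_mem hz (inv_mem h8)
      simpa using this
    rw [ha0, ha0, add_zero]
    · intro h8
      apply h7
      rw [inv_mul_eq_one] at h8
      rw [← h8]
      exact hpm
    · intro h8
      apply h7
      rw [h8]
      exact one_mem _
  rw [h6, h4 a.f p⁻¹ (inv_mem hpm), h4 g.f (p * p)⁻¹ (inv_mem (mul_mem hpm hpm)), h5, add_zero] at h3
  have h7 : (1 : ZMod 3) + 1 = 0 := by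
    rw [eq_comm, add_eq_right] at h3
    exact h3
  exact absurd h7 (by decide)

end wr

end Pool.Agent.Q171.AS
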