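import Pool.Agent.Q171.AS.Flag

/-!
The version for outer automorphisms.
-/

namespace Pool.Agent.Q171.AS

open FreeGroup (of lift)
open Pool.Agent.Q24.PG (Wr)
open Pool.Agent.Q24.CG

/-- An element conjugating a function of sum one supported in a subgroup to a function supported in the
subgroup lies in the subgroup. -/
theorem wr_norm {P : Type} [Group P] [Finite P] (A : Subgroup P) {a b g : Wr 3 P}
    (ha1 : a.f 1 = 1) (ha0 : ∀ z, z ≠ 1 → a.f z = 0) (haq : a.q ∈ A) (hb : ∀ z, z ∉ A → b.f z = 0)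
    (h : g * a * g⁻¹ = b) : g.q ∈ A := by
  classical
  by_contra hne
  have h1 : g * a = b * g := mul_inv_eq_iff_eq_mul.1 h
  have := Fintype.ofFinite P
  have hq : b.q = g.q * a.q * g.q⁻¹ := by rw [← h]; rfl
  have h2 : ∀ z, g.f z + a.f (g.q⁻¹ * z) = b.f z + g.f (b.q⁻¹ * z) := by
    intro z
    have := congrArg (fun w : Wr 3 P => w.f z) h1
    simp only [Wr.mul_f] at this
    exact this
  let S : Finset P := Finset.univ.filter (fun z => g.q⁻¹ * z ∈ A)
  have hS : ∀ z, z ∈ S ↔ g.q⁻¹ * z ∈ A := fun z => by simp [S]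
  have h3 := Finset.sum_congr (rfl : S = S) (fun z _ => h2 z)
  rw [Finset.sum_add_distrib, Finset.sum_add_distrib] at h3
  have h4 : ∑ z ∈ S, g.f (b.q⁻¹ * z) = ∑ z ∈ S, g.f z := by
    have e : ∀ z, g.q⁻¹ * (b.q⁻¹ * z) = a.q⁻¹ * (g.q⁻¹ * z) := by
      intro z
      rw [hq]; group
    have e' : ∀ z, g.q⁻¹ * (b.q * z) = a.q * (g.q⁻¹ * z) := by
      intro z
      rw [hq]; group
    apply Finset.sum_bij (fun z _ => b.q⁻¹ * z)
    · intro z hz
      rw [hS] at hz ⊢
      rw [e]
      exact mul_mem (inv_mem haq) hz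
    · intro x _ y _ hxy
      exact mul_left_cancel hxy
    · intro z hz
      rw [hS] at hz
      refine ⟨b.q * z, ?_, by group⟩
      rw [hS, e']
      exact mul_mem haq hz
    · intro z _
      rfl
  have h5 : ∑ z ∈ S, a.f (g.q⁻¹ * z) = 1 := by
    rw [Finset.sum_eq_single g.q]
    · rw [inv_mul_cancel, ha1]
    · intro z _ hz
      apply ha0
      intro h6
      apply hz
      rw [inv_mul_eq_one] at h6
      exact h6.symm
    · intro h6
      exfalso
      apply h6
      rw [hS, inv_mul_cancel]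
      exact one_mem _
  have h6 : ∑ z ∈ S, b.f z = 0 := by
    apply Finset.sum_eq_zero
    intro z hz
    rw [hS] at hz
    apply hb
    intro h7
    apply hne
    have := mul_mem h7 (inv_mem hz)
    simpa using this
  rw [h4, h5, h6, zero_add, add_eq_left] at h3
  exact absurd h3 (by decide)

/-- values of a homomorphism on a subgroup are supported in the image of the subgroup -/
theorem supp_of {F P : Type} [Group F] [Group P] (χ : F →* Wr 3 P) (A : Subgroup P) (S : Set F)
    (h : ∀ x ∈ S, (χ x).q ∈ A ∧ ∀ z, z ∉ A → (χ x).f z = 0) {x : F} (hx : x ∈ Subgroup.closure S) :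
    (χ x).q ∈ A ∧ ∀ z, z ∉ A → (χ x).f z = 0 := by
  let B : Subgroup F :=
    { carrier := {x | (χ x).q ∈ A ∧ ∀ z, z ∉ A → (χ x).f z = 0}
      one_mem' := by
        refine ⟨by rw [map_one]; exact one_mem _, fun z _ => by rw [map_one]; rfl⟩
      mul_mem' := by
        rintro x y ⟨hx, hx'⟩ ⟨hy, hy'⟩
        refine ⟨by rw [map_mul]; exact mul_mem hx hy, fun z hz => ?_⟩
        rw [map_mul, Wr.mul_f, hx' z hz, hy', add_zero]
        intro h1
        apply hz
        have := mul_mem hx h1
        rwa [mul_inv_cancel_left] at this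
      inv_mem' := by
        rintro x ⟨hx, hx'⟩
        refine ⟨by rw [map_inv]; exact inv_mem hx, fun z hz => ?_⟩
        rw [map_inv, Wr.inv_f, hx', neg_zero]
        intro h1
        apply hz
        have := mul_mem (inv_mem hx) h1
        rwa [inv_mul_cancel_left] at this }
  have : Subgroup.closure S ≤ B := by
    rw [Subgroup.closure_le]
    exact h
  exact this hx

variable {n : ℕ}

theorem conj_mem_flag {a : FreeGroup (Fin n)} (ha : a ∈ base n) : MulAut.conj a ∈ flag n := by
  refine ⟨fun w => ?_, fun i hi => ?_⟩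
  · rw [MulAut.conj_apply]
    constructor
    · intro h
      have := mul_mem (mul_mem (inv_mem ha) h) ha
      have e : a⁻¹ * (a * w * a⁻¹) * a = w := by group
      rwa [e] at this
    · intro h
      exact mul_mem (mul_mem ha h) (inv_mem ha)
  · exact ⟨a, base_le_low hi ha, a⁻¹, inv_mem (base_le_low hi ha), Or.inl (by simp)⟩

/-- The version for `Out`. -/
theorem flag_out (hn : 2 ≤ n) (M : Subgroup (flag n)) [M.FiniteIndex]
    (hM : ∀ (g : FreeGroup (Fin n)) (h : MulAut.conj g ∈ flag n), (⟨MulAut.conj g, h⟩ : flag n) ∈ M) :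
    ∃ K : Subgroup (FreeGroup (Fin n)), K.Characteristic ∧ K.FiniteIndex ∧
      ∀ α : flag n, (∃ g : FreeGroup (Fin n), ∀ x : FreeGroup (Fin n),
        (α : MulAut (FreeGroup (Fin n))) x * (g * x * g⁻¹)⁻¹ ∈ K) → α ∈ M := by
  classical
  obtain ⟨K, hK, hKf, hKM⟩ := flag_aut hn M
  have hKn : K.Normal := inferInstance
  let P := FreeGroup (Fin n) ⧸ K
  let π : FreeGroup (Fin n) →* P := QuotientGroup.mk' K
  have hPf : Finite P := inferInstance
  refine ⟨K ⊓ KK (FreeGroup (Fin n)) (Wr 3 P), ?_, inferInstance, ?_⟩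
  · refine ⟨fun ϕ => ?_⟩
    rw [Subgroup.comap_inf, hK.fixed ϕ, KK_char.fixed ϕ]
  · rintro α ⟨g, hg⟩
    let z : Fin n := ⟨0, by omega⟩
    let χ : FreeGroup (Fin n) →* Wr 3 P := lift (fun j =>
      if j = z then dl (π (of j)) else dz (π (of j)))
    have hχ : ∀ w, (χ w).q = π w := by
      intro w
      have : (Wr.pr 3 P).comp χ = π := by
        ext j
        change (χ (of j)).q = π (of j)
        by_cases h : j = z <;> simp [χ, h, dl, dz]
      exact DFunLike.congr_fun this w
    have hχz : χ (of z) = dl (π (of z)) := by simp [χ]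
    let A : Subgroup P := (base n).map π
    have hsupp : ∀ x ∈ base n, (χ x).q ∈ A ∧ ∀ y, y ∉ A → (χ x).f y = 0 := by
      intro x hx
      apply supp_of χ A _ _ hx
      rintro _ ⟨j, hj, rfl⟩
      refine ⟨by rw [hχ]; exact ⟨_, of_mem_base hj, rfl⟩, fun y hy => ?_⟩
      have hy1 : y ≠ 1 := fun h => hy (by rw [h]; exact one_mem _)
      by_cases h : j = z
      · simp [χ, h, dl, hy1]
      · simp [χ, h, dz]
    have hχg : χ g * χ (of z) * (χ g)⁻¹ = χ ((α : MulAut (FreeGroup (Fin n))) (of z)) := by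
      have h1 := mem_KK.1 (hg (of z)).2 χ
      rw [map_mul, map_inv, mul_inv_eq_one] at h1
      rw [h1]
      simp
    have hαz : (α : MulAut (FreeGroup (Fin n))) (of z) ∈ base n :=
      (α.2.1 _).2 (of_mem_base (by simp [z]))
    have h2 := wr_norm A (a := χ (of z)) (g := χ g) (by simp [hχz, dl])
      (fun y hy => by simp [hχz, dl, hy]) (by rw [hχ]; exact ⟨_, of_mem_base (by simp [z]), rfl⟩)
      (hsupp _ hαz).2 hχg
    rw [hχ] at h2
    obtain ⟨a, ha, haπ⟩ := h2
    -- correct by an inner automorphism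
    let c : flag n := ⟨MulAut.conj a, conj_mem_flag ha⟩
    have hc : c ∈ M := hM _ _
    have h3 : c⁻¹ * α ∈ M := by
      apply hKM
      intro w
      have e1 : ((c⁻¹ * α : flag n) : MulAut (FreeGroup (Fin n))) w =
          a⁻¹ * (α : MulAut (FreeGroup (Fin n))) w * a := by
        change (MulAut.conj a)⁻¹ ((α : MulAut (FreeGroup (Fin n))) w) = _
        rw [← map_inv, MulAut.conj_apply, inv_inv]
      rw [e1]
      have h4 : (α : MulAut (FreeGroup (Fin n))) w * (g * w * g⁻¹)⁻¹ ∈ K := (hg w).1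
      rw [← QuotientGroup.eq_one_iff] at h4 ⊢
      have h5 : π ((α : MulAut (FreeGroup (Fin n))) w) = π a * π w * (π a)⁻¹ := by
        have h6 : π ((α : MulAut (FreeGroup (Fin n))) w * (g * w * g⁻¹)⁻¹) = 1 := h4
        rw [map_mul, map_inv, mul_inv_eq_one] at h6
        rw [h6, map_mul, map_mul, map_inv, haπ]
      change π (a⁻¹ * (α : MulAut (FreeGroup (Fin n))) w * a * w⁻¹) = 1
      rw [map_mul, map_mul, map_mul, map_inv, h5, map_inv]
      group
    have h4 : α = c * (c⁻¹ * α) := by group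
    rw [h4]
    exact mul_mem hc h3

end Pool.Agent.Q171.AS
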