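import Pool.Agent.Q171.AS.FlagOut

/-!
Free products of free groups: the congruence topology on the product of the automorphism groups of the
factors.
-/

namespace Pool.Agent.Q171.AS

open FreeGroup (of lift)
open Pool.Agent.Q24.PG (Wr)
open Pool.Agent.Q24.CG

/-! ### Rank one -/

theorem rank1_pow (w : FreeGroup (Fin 1)) : ∃ k : ℤ, w = of 0 ^ k := by
  have h : (⊤ : Subgroup (FreeGroup (Fin 1))) ≤ Subgroup.zpowers (of 0) := by
    rw [← FreeGroup.closure_range_of, Subgroup.closure_le]
    rintro _ ⟨i, rfl⟩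
    rw [Subsingleton.elim i 0]
    exact Subgroup.mem_zpowers _
  obtain ⟨k, hk⟩ := Subgroup.mem_zpowers_iff.1 (h (Subgroup.mem_top w))
  exact ⟨k, hk.symm⟩

theorem rank1_aut {α : MulAut (FreeGroup (Fin 1))}
    (h : ∀ (f : FreeGroup (Fin 1) →* Multiplicative (ZMod 3)) w, f (α w) = f w) : α = 1 := by
  obtain ⟨k, hk⟩ := rank1_pow (α (of 0))
  obtain ⟨l, hl⟩ := rank1_pow (α⁻¹ (of 0))
  have h1 : (of 0 : FreeGroup (Fin 1)) = of 0 ^ (l * k) := by
    have h2 : α⁻¹ (α (of 0)) = of 0 := MulAut.inv_apply_self _ _ _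
    rw [hk, map_zpow, hl, ← zpow_mul] at h2
    exact h2.symm
  let e : FreeGroup (Fin 1) →* Multiplicative ℤ := lift fun _ => Multiplicative.ofAdd 1
  have he : e (of 0) = Multiplicative.ofAdd 1 := by simp [e]
  have h2 : l * k = 1 := by
    have h3 := congrArg e h1
    rw [map_zpow, he, ← ofAdd_zsmul] at h3
    have h4 := Multiplicative.ofAdd.injective h3
    simpa using h4.symm
  have hk1 : k = 1 ∨ k = -1 := by
    rcases Int.mul_eq_one_iff_eq_one_or_neg_one.1 h2 with h3 | h3
    · exact Or.inl h3.2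
    · exact Or.inr h3.2
  have hk2 : k = 1 := by
    rcases hk1 with h3 | h3
    · exact h3
    · exfalso
      let f : FreeGroup (Fin 1) →* Multiplicative (ZMod 3) := lift fun _ => Multiplicative.ofAdd 1
      have hf : f (of 0) = Multiplicative.ofAdd 1 := by simp [f]
      have h4 := h f (of 0)
      rw [hk, map_zpow, hf, h3] at h4
      exact absurd h4 (by decide)
  apply aut_ext
  intro i
  rw [Subsingleton.elim i 0, hk, hk2, zpow_one]
  rfl

theorem flag_top {m : ℕ} (hm : m ≤ 2) : flag m = ⊤ := by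
  rw [Subgroup.eq_top_iff']
  intro α
  have h : base m = ⊤ := by
    rw [eq_top_iff, ← FreeGroup.closure_range_of, Subgroup.closure_le]
    rintro _ ⟨i, rfl⟩
    exact of_mem_base (by omega)
  refine ⟨fun w => by simp [h], fun i hi => ?_⟩
  exfalso
  omega

/-- The version for `Aut`, all ranks. -/
theorem flag_aut' {m : ℕ} (hm : 1 ≤ m) (M : Subgroup (flag m)) [M.FiniteIndex] :
    ∃ K : Subgroup (FreeGroup (Fin m)), K.Characteristic ∧ K.FiniteIndex ∧
      ∀ α : flag m, (∀ w, (α : MulAut (FreeGroup (Fin m))) w * w⁻¹ ∈ K) → α ∈ M := by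
  by_cases h : 2 ≤ m
  · exact flag_aut h M
  · have : m = 1 := by omega
    subst this
    refine ⟨KK (FreeGroup (Fin 1)) (Multiplicative (ZMod 3)), KK_char, KK_fin, fun α hα => ?_⟩
    have : (α : MulAut (FreeGroup (Fin 1))) = 1 := by
      apply rank1_aut
      intro f w
      have h1 := mem_KK.1 (hα w) f
      rw [map_mul, map_inv, mul_inv_eq_one] at h1
      exact h1
    have h2 : α = 1 := Subtype.ext this
    rw [h2]
    exact one_mem _

/-! ### Free products -/

variable {k : ℕ} (n : Fin k → ℕ)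

/-- the free product of the free groups of ranks `n 0, n 1, ...` -/
abbrev FP : Type := FreeGroup (Σ i : Fin k, Fin (n i))

/-- the inclusion of a factor -/
def inc (i : Fin k) : FreeGroup (Fin (n i)) →* FP n := lift fun j => of ⟨i, j⟩

/-- the retraction to a factor -/
def rt (i : Fin k) : FP n →* FreeGroup (Fin (n i)) :=
  lift fun p => if h : p.1 = i then of (h ▸ p.2) else 1

theorem rt_inc (i : Fin k) (w : FreeGroup (Fin (n i))) : rt n i (inc n i w) = w := by
  have : (rt n i).comp (inc n i) = MonoidHom.id _ := by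
    ext j
    simp [rt, inc]
  exact DFunLike.congr_fun this w

theorem rt_inc_ne {i j : Fin k} (h : j ≠ i) (w : FreeGroup (Fin (n j))) : rt n i (inc n j w) = 1 := by
  have : (rt n i).comp (inc n j) = 1 := by
    ext l
    simp [rt, inc, h]
  exact DFunLike.congr_fun this w

/-- the endomorphism with given restrictions to the factors -/
def prodH (φ : ∀ i, FreeGroup (Fin (n i)) →* FreeGroup (Fin (n i))) : FP n →* FP n :=
  lift fun p => inc n p.1 (φ p.1 (of p.2))

theorem prodH_inc (φ : ∀ i, FreeGroup (Fin (n i)) →* FreeGroup (Fin (n i))) (i : Fin k)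
    (w : FreeGroup (Fin (n i))) : prodH n φ (inc n i w) = inc n i (φ i w) := by
  have : (prodH n φ).comp (inc n i) = (inc n i).comp (φ i) := by
    ext j
    simp [prodH, inc]
  exact DFunLike.congr_fun this w

theorem fp_ext {G : Type} [Group G] {f g : FP n →* G}
    (h : ∀ i w, f (inc n i w) = g (inc n i w)) : f = g := by
  ext ⟨i, j⟩
  have := h i (of j)
  simpa [inc] using this

/-- the family of endomorphisms given by a family of automorphisms -/
def toH (α : ∀ i, MulAut (FreeGroup (Fin (n i)))) (i : Fin k) :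
    FreeGroup (Fin (n i)) →* FreeGroup (Fin (n i)) := (α i).toMonoidHom

theorem toH_apply (α : ∀ i, MulAut (FreeGroup (Fin (n i)))) (i : Fin k)
    (w : FreeGroup (Fin (n i))) : toH n α i w = α i w := rfl

/-- The automorphism of the free product with the restrictions `α i` to the factors. -/
def prodA (α : ∀ i, MulAut (FreeGroup (Fin (n i)))) : MulAut (FP n) :=
  MonoidHom.toMulEquiv (prodH n (toH n α)) (prodH n (toH n α⁻¹))
    (by
      apply fp_ext
      intro i w
      change prodH n (toH n α⁻¹) (prodH n (toH n α) (inc n i w)) = inc n i w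
      rw [prodH_inc, prodH_inc, toH_apply, toH_apply, Pi.inv_apply, MulAut.inv_apply_self])
    (by
      apply fp_ext
      intro i w
      change prodH n (toH n α) (prodH n (toH n α⁻¹) (inc n i w)) = inc n i w
      rw [prodH_inc, prodH_inc, toH_apply, toH_apply, Pi.inv_apply, MulAut.apply_inv_self])

theorem prodA_inc (α : ∀ i, MulAut (FreeGroup (Fin (n i)))) (i : Fin k)
    (w : FreeGroup (Fin (n i))) : prodA n α (inc n i w) = inc n i (α i w) :=
  prodH_inc n (toH n α) i w

/-- The congruence topology of the outer automorphism group of the free product induces the product of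
the congruence topologies. -/
theorem split_all (hk : 2 ≤ k) (hn : ∀ i, 1 ≤ n i) (K : ∀ i, Subgroup (FreeGroup (Fin (n i))))
    (hK : ∀ i, (K i).Characteristic) (hKf : ∀ i, (K i).FiniteIndex) :
    ∃ L : Subgroup (FP n), L.Characteristic ∧ L.FiniteIndex ∧
      ∀ α : ∀ i, MulAut (FreeGroup (Fin (n i))),
        (∃ g, ∀ x, prodA n α x * (g * x * g⁻¹)⁻¹ ∈ L) → ∀ i w, α i w * w⁻¹ ∈ K i := by
  classical
  have hKn : ∀ i, (K i).Normal := fun i => inferInstance
  let P := ∀ i, FreeGroup (Fin (n i)) ⧸ K i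
  have hPf : Finite P := inferInstance
  let π : FP n →* P := MonoidHom.pi fun i => (QuotientGroup.mk' (K i)).comp (rt n i)
  have hπ : ∀ x i, π x i = QuotientGroup.mk' (K i) (rt n i x) := fun x i => rfl
  refine ⟨KK (FP n) P ⊓ KK (FP n) (Wr 3 P), ?_, ?_, ?_⟩
  · refine ⟨fun ϕ => ?_⟩
    rw [Subgroup.comap_inf, KK_char.fixed ϕ, KK_char.fixed ϕ]
  · have h1 : (KK (FP n) P).FiniteIndex := KK_fin
    have h2 : (KK (FP n) (Wr 3 P)).FiniteIndex := KK_fin
    infer_instance
  · rintro α ⟨g, hg⟩
    have key : ∀ i, ∃ a, π g = π (inc n i a) := by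
      intro i
      let z : Σ i : Fin k, Fin (n i) := ⟨i, ⟨0, hn i⟩⟩
      let χ : FP n →* Wr 3 P := lift (fun j => if j = z then dl (π (of j)) else dz (π (of j)))
      have hχ : ∀ w, (χ w).q = π w := by
        intro w
        have : (Wr.pr 3 P).comp χ = π := by
          ext j
          change (χ (of j)).q _ = π (of j) _
          by_cases h : j = z <;> simp [χ, h, dl, dz]
        exact DFunLike.congr_fun this w
      have hχz : χ (of z) = dl (π (of z)) := by simp [χ]
      have hz : inc n i (of ⟨0, hn i⟩) = of z := by simp [inc, z]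
      let A : Subgroup P := (π.comp (inc n i)).range
      have hsupp : ∀ x : FreeGroup (Fin (n i)),
          (χ (inc n i x)).q ∈ A ∧ ∀ y, y ∉ A → (χ (inc n i x)).f y = 0 := by
        intro x
        have hx : x ∈ Subgroup.closure (Set.range (of : Fin (n i) → FreeGroup (Fin (n i)))) := by
          rw [FreeGroup.closure_range_of]; exact Subgroup.mem_top x
        apply supp_of (χ.comp (inc n i)) A _ _ hx
        rintro _ ⟨j, rfl⟩
        have e : inc n i (of j) = of ⟨i, j⟩ := by simp [inc]
        refine ⟨by rw [MonoidHom.comp_apply, hχ]; exact ⟨_, rfl⟩, fun y hy => ?_⟩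
        have hy1 : y ≠ 1 := fun h => hy (by rw [h]; exact one_mem _)
        rw [MonoidHom.comp_apply, e]
        by_cases h : (⟨i, j⟩ : Σ i : Fin k, Fin (n i)) = z
        · simp [χ, h, dl, hy1]
        · simp [χ, h, dz]
      have hχg : χ g * χ (of z) * (χ g)⁻¹ = χ (inc n i (α i (of ⟨0, hn i⟩))) := by
        have h1 := mem_KK.1 (hg (of z)).2 χ
        rw [map_mul, map_inv, mul_inv_eq_one] at h1
        rw [← prodA_inc, hz, h1]
        simp
      have h2 := wr_norm A (a := χ (of z)) (g := χ g) (by simp [hχz, dl])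
        (fun y hy => by simp [hχz, dl, hy]) (by rw [← hz]; exact (hsupp _).1)
        (hsupp _).2 hχg
      rw [hχ] at h2
      obtain ⟨a, ha⟩ := h2
      exact ⟨a, ha.symm⟩
    have hg1 : ∀ i, QuotientGroup.mk' (K i) (rt n i g) = 1 := by
      intro i
      obtain ⟨j, hj⟩ : ∃ j : Fin k, j ≠ i := by
        have : Nontrivial (Fin k) := Fin.nontrivial_iff_two_le.2 hk
        exact exists_ne i
      obtain ⟨a, ha⟩ := key j
      have := congrFun ha i
      rw [hπ, hπ, rt_inc_ne n hj, map_one] at this
      exact this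
    intro i w
    have h1 := congrFun (mem_KK.1 (hg (inc n i w)).1 π) i
    rw [map_mul, map_inv, Pi.mul_apply, Pi.inv_apply, Pi.one_apply, mul_inv_eq_one, prodA_inc, hπ,
      rt_inc, map_mul, map_mul, map_inv, Pi.mul_apply, Pi.mul_apply, Pi.inv_apply, hπ, hπ, rt_inc,
      hg1, one_mul, inv_one, mul_one] at h1
    rw [← QuotientGroup.eq_one_iff, ← QuotientGroup.mk'_apply, map_mul, map_inv, mul_inv_eq_one]
    exact h1

/-- The full profinite topology on products of stabilizers of flags. -/
theorem split_flag (hk : 2 ≤ k) (hn : ∀ i, 1 ≤ n i) (M : Subgroup (∀ i, flag (n i)))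
    [M.FiniteIndex] : ∃ L : Subgroup (FP n), L.Characteristic ∧ L.FiniteIndex ∧
      ∀ α : ∀ i, flag (n i),
        (∃ g, ∀ x, prodA n (fun i => (α i : MulAut (FreeGroup (Fin (n i))))) x *
          (g * x * g⁻¹)⁻¹ ∈ L) → α ∈ M := by
  classical
  have h1 : ∀ i, (M.comap (MonoidHom.mulSingle (fun i => flag (n i)) i)).FiniteIndex :=
    fun i => fi_comap _ _
  have h2 := fun i => flag_aut' (hn i) (M.comap (MonoidHom.mulSingle (fun i => flag (n i)) i))
  choose K hK hKf hKM using h2
  obtain ⟨L, hL, hLf, hLM⟩ := split_all n hk hn K hK hKf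
  refine ⟨L, hL, hLf, fun α hα => ?_⟩
  have h3 := hLM _ hα
  apply Subgroup.pi_mem_of_mulSingle_mem
  intro i
  exact hKM i (α i) (h3 i)

end Pool.Agent.Q171.AS
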