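import Pool.Agent.Q171.AS.Gen3

/-!
The index four subgroup: a homomorphism from the free group of rank two to a wreath product of the
free group of rank three with the four-group.
-/

namespace Pool.Agent.Q171.AS

open FreeGroup (of lift)

/-- the four-group -/
inductive V
  | o | a | b | c
  deriving DecidableEq, Fintype

namespace V

/-- multiplication -/
def m : V → V → V
  | o, x => x
  | a, o => a
  | a, a => o
  | a, b => c
  | a, c => b
  | b, o => b
  | b, a => c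
  | b, b => o
  | b, c => a
  | c, o => c
  | c, a => b
  | c, b => a
  | c, c => o

instance : Mul V := ⟨m⟩
instance : One V := ⟨o⟩
instance : Inv V := ⟨id⟩

instance : CommGroup V where
  mul_assoc := by rintro ⟨⟩ ⟨⟩ ⟨⟩ <;> rfl
  one_mul := by rintro ⟨⟩ <;> rfl
  mul_one := by rintro ⟨⟩ <;> rfl
  inv_mul_cancel := by rintro ⟨⟩ <;> rfl
  mul_comm := by rintro ⟨⟩ ⟨⟩ <;> rfl

theorem one_def : (1 : V) = o := rfl
@[simp] theorem o_mul (x : V) : o * x = x := one_mul x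
@[simp] theorem mul_o (x : V) : x * o = x := mul_one x
@[simp] theorem aa : a * a = o := rfl
@[simp] theorem ab : a * b = c := rfl
@[simp] theorem ac : a * c = b := rfl
@[simp] theorem ba : b * a = c := rfl
@[simp] theorem vbb : b * b = o := rfl
@[simp] theorem bc : b * c = a := rfl
@[simp] theorem ca : c * a = b := rfl
@[simp] theorem cb : c * b = a := rfl
@[simp] theorem cc : c * c = o := rfl

theorem sq (x : V) : x * x = 1 := by cases x <;> rfl
theorem inv_def (x : V) : x⁻¹ = x := rfl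

end V

/-- the wreath product with the four-group -/
@[ext]
structure Tw (D : Type) where
  l : V → D
  r : V

namespace Tw

variable {D : Type} [Group D] {D' : Type} [Group D']

instance : Mul (Tw D) := ⟨fun x y => ⟨fun v => x.l v * y.l (x.r * v), x.r * y.r⟩⟩
instance : One (Tw D) := ⟨⟨fun _ => 1, V.o⟩⟩
instance : Inv (Tw D) := ⟨fun x => ⟨fun v => (x.l (x.r * v))⁻¹, x.r⟩⟩

@[simp] theorem mul_l (x y : Tw D) (v : V) : (x * y).l v = x.l v * y.l (x.r * v) := rfl
@[simp] theorem mul_r (x y : Tw D) : (x * y).r = x.r * y.r := rfl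
@[simp] theorem one_l (v : V) : (1 : Tw D).l v = 1 := rfl
@[simp] theorem one_r : (1 : Tw D).r = V.o := rfl
@[simp] theorem inv_l (x : Tw D) (v : V) : (x⁻¹).l v = (x.l (x.r * v))⁻¹ := rfl
@[simp] theorem inv_r (x : Tw D) : (x⁻¹).r = x.r := rfl

instance : Group (Tw D) where
  mul_assoc x y z := by
    ext v
    · simp only [mul_l, mul_r, mul_assoc]
      rw [← mul_assoc x.r, ← mul_assoc y.r, mul_comm x.r y.r]
    · simp [mul_assoc]
  one_mul x := by ext <;> simp
  mul_one x := by ext <;> simp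
  inv_mul_cancel x := by
    ext v
    · simp
    · exact V.sq _

instance [Finite D] : Finite (Tw D) := by
  apply Finite.of_injective (fun x : Tw D => (x.l, x.r))
  intro x y h
  exact Tw.ext (congrArg Prod.fst h) (congrArg Prod.snd h)

/-- functoriality -/
def map (φ : D →* D') : Tw D →* Tw D' where
  toFun x := ⟨fun v => φ (x.l v), x.r⟩
  map_one' := by ext <;> simp
  map_mul' x y := by ext <;> simp

@[simp] theorem map_l (φ : D →* D') (x : Tw D) (v : V) : (map φ x).l v = φ (x.l v) := rfl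
@[simp] theorem map_r (φ : D →* D') (x : Tw D) : (map φ x).r = x.r := rfl

/-- projection -/
def pr : Tw D →* V where
  toFun x := x.r
  map_one' := rfl
  map_mul' _ _ := rfl

/-- constant elements -/
def cst {G : Type} [Group G] (u : G →* D) (v : G →* V) : G →* Tw D where
  toFun w := ⟨fun _ => u w, v w⟩
  map_one' := by ext <;> simp [V.one_def]
  map_mul' x y := by ext <;> simp

end Tw

/-- the free group of rank three -/
abbrev EE : Type := FreeGroup (Fin 3)
/-- generator -/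
abbrev e0 : EE := of 0
/-- generator -/
abbrev e1 : EE := of 1
/-- generator -/
abbrev e2 : EE := of 2
/-- the fourth puncture -/
def zE : EE := (e0 * e1 * e2)⁻¹

theorem ext3 {G : Type} [Group G] {f g : EE →* G} (h0 : f e0 = g e0) (h1 : f e1 = g e1)
    (h2 : f e2 = g e2) : f = g := by
  ext i
  fin_cases i
  · exact h0
  · exact h1
  · exact h2

/-- the first function -/
def kx : V → EE
  | V.o => e1 * e2
  | V.a => 1
  | V.b => (e1 * e2)⁻¹
  | V.c => 1

/-- the second function -/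
def ky : V → EE
  | V.o => e0
  | V.a => e1
  | V.b => e2
  | V.c => zE

/-- the embedding into the wreath product -/
def ρ : FF →* Tw EE := lift ![⟨kx, V.c⟩, ⟨ky, V.a⟩]

@[simp] theorem ρ_X : ρ X = ⟨kx, V.c⟩ := by simp [ρ]
@[simp] theorem ρ_Y : ρ Y = ⟨ky, V.a⟩ := by simp [ρ]

theorem c1w : (ρ (Y * X * Y⁻¹ * X⁻¹)).r = V.o ∧ (ρ (Y * X * Y⁻¹ * X⁻¹)).l V.o = e0 * e0 := by
  constructor
  · simp
  · simp [kx, ky, zE, mul_assoc]

theorem c0w : (ρ (X * Y⁻¹ * X⁻¹ * Y)).r = V.o ∧ (ρ (X * Y⁻¹ * X⁻¹ * Y)).l V.o = e1 * e1 := by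
  constructor
  · simp
  · simp [kx, ky, mul_assoc]

theorem c3w : (ρ (Y⁻¹ * X⁻¹ * Y * X)).r = V.o ∧ (ρ (Y⁻¹ * X⁻¹ * Y * X)).l V.o = e2 * e2 := by
  constructor
  · simp
  · simp [kx, ky, mul_assoc]

theorem c2w : (ρ (X⁻¹ * Y * X * Y⁻¹)).r = V.o ∧ (ρ (X⁻¹ * Y * X * Y⁻¹)).l V.o = zE * zE := by
  constructor
  · simp
  · simp [kx, ky, zE, mul_assoc]

/-- `e0 ↦ (e1 e2) e0 (e1 e2)⁻¹` -/
def sE : MulAut EE :=
  MonoidHom.toMulEquiv (lift ![(e1 * e2) * e0 * (e1 * e2)⁻¹, e1, e2])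
    (lift ![(e1 * e2)⁻¹ * e0 * (e1 * e2), e1, e2])
    (by apply ext3 <;> simp [mul_assoc])
    (by apply ext3 <;> simp [mul_assoc])

/-- `e2 ↦ (e0 e1) e2 (e0 e1)⁻¹` -/
def tE : MulAut EE :=
  MonoidHom.toMulEquiv (lift ![e0, e1, (e0 * e1) * e2 * (e0 * e1)⁻¹])
    (lift ![e0, e1, (e0 * e1)⁻¹ * e2 * (e0 * e1)])
    (by apply ext3 <;> simp [mul_assoc])
    (by apply ext3 <;> simp [mul_assoc])

@[simp] theorem sE_0 : sE e0 = e1 * e2 * e0 * (e1 * e2)⁻¹ := by
  change lift ![(e1 * e2) * e0 * (e1 * e2)⁻¹, e1, e2] e0 = _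
  simp
@[simp] theorem sE_1 : sE e1 = e1 := by
  change lift ![(e1 * e2) * e0 * (e1 * e2)⁻¹, e1, e2] e1 = _
  simp
@[simp] theorem sE_2 : sE e2 = e2 := by
  change lift ![(e1 * e2) * e0 * (e1 * e2)⁻¹, e1, e2] e2 = _
  simp
@[simp] theorem tE_0 : tE e0 = e0 := by
  change lift ![e0, e1, (e0 * e1) * e2 * (e0 * e1)⁻¹] e0 = _
  simp
@[simp] theorem tE_1 : tE e1 = e1 := by
  change lift ![e0, e1, (e0 * e1) * e2 * (e0 * e1)⁻¹] e1 = _
  simp
@[simp] theorem tE_2 : tE e2 = e0 * e1 * e2 * (e0 * e1)⁻¹ := by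
  change lift ![e0, e1, (e0 * e1) * e2 * (e0 * e1)⁻¹] e2 = _
  simp

/-- the action of words in `s`, `t` -/
def ΦE : LL →* MulAut EE := lift ![sE, tE]

@[simp] theorem ΦE_0 : ΦE (of 0) = sE := by simp [ΦE]
@[simp] theorem ΦE_1 : ΦE (of 1) = tE := by simp [ΦE]

/-- compatibility of one word -/
def Comp (l : LL) : Prop := ∃ h : V → EE, h V.o = 1 ∧
  ∀ w, ρ (Φ l w) = ⟨h, V.o⟩ * Tw.map (ΦE l).toMonoidHom (ρ w) * ⟨h, V.o⟩⁻¹

theorem comp_of (l : LL) (h : V → EE) (h1 : h V.o = 1)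
    (hX : ρ (Φ l X) = ⟨h, V.o⟩ * Tw.map (ΦE l).toMonoidHom (ρ X) * ⟨h, V.o⟩⁻¹)
    (hY : ρ (Φ l Y) = ⟨h, V.o⟩ * Tw.map (ΦE l).toMonoidHom (ρ Y) * ⟨h, V.o⟩⁻¹) : Comp l := by
  refine ⟨h, h1, fun w => ?_⟩
  have : ρ.comp (Φ l).toMonoidHom = (MulAut.conj (⟨h, V.o⟩ : Tw EE)).toMonoidHom.comp
      ((Tw.map (ΦE l).toMonoidHom).comp ρ) := ext2 hX hY
  exact DFunLike.congr_fun this w

/-- correction for `s` -/
def hs : V → EE
  | V.o => 1
  | V.a => (e1 * e2)⁻¹
  | V.b => (e1 * e2)⁻¹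
  | V.c => 1

/-- correction for `t` -/
def ht : V → EE
  | V.o => 1
  | V.a => 1
  | V.b => (e0 * e1)⁻¹
  | V.c => (e0 * e1)⁻¹

theorem comp_s : Comp (of 0) := by
  apply comp_of _ hs rfl
  · rw [Φ_0, ΦE_0]
    ext v
    · cases v <;> simp [kx, hs, mul_assoc]
    · simp
  · rw [Φ_0, ΦE_0]
    ext v
    · cases v <;> simp [kx, ky, hs, zE, mul_assoc]
    · simp

theorem comp_t : Comp (of 1) := by
  apply comp_of _ ht rfl
  · rw [Φ_1, ΦE_1]
    ext v
    · cases v <;> simp [kx, ky, ht, zE, mul_assoc]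
    · simp
  · rw [Φ_1, ΦE_1]
    ext v
    · cases v <;> simp [ky, ht, zE, mul_assoc]
    · simp

theorem comp_all (l : LL) : Comp l := by
  let P : Subgroup LL :=
    { carrier := {l | Comp l}
      one_mem' := ⟨fun _ => 1, rfl, fun w => by
        have : (⟨fun _ => 1, V.o⟩ : Tw EE) = 1 := rfl
        rw [this, map_one, map_one]
        simp only [one_mul, inv_one, mul_one]
        ext <;> rfl⟩
      mul_mem' := by
        rintro l m ⟨h, h1, h2⟩ ⟨h', h1', h2'⟩
        refine ⟨fun v => h v * ΦE l (h' v), by simp [h1, h1'], fun w => ?_⟩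
        rw [map_mul, MulAut.mul_apply, h2, h2', map_mul ΦE]
        ext v
        · simp [mul_assoc]
        · simp
      inv_mem' := by
        rintro l ⟨h, h1, h2⟩
        refine ⟨fun v => ΦE l⁻¹ (h v)⁻¹, by simp [h1], fun w => ?_⟩
        have h3 := h2 (Φ l⁻¹ w)
        have e : Φ l (Φ l⁻¹ w) = w := by
          rw [map_inv, MulAut.apply_inv_self]
        rw [e] at h3
        rw [h3]
        ext v
        · simp [mul_assoc]
        · simp }
  exact ind (P := P) comp_s comp_t l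

end Pool.Agent.Q171.AS
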